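import Mathlib
import Pool.Agent.N630.PHC.Up
import Pool.Agent.N630.PHC.Fin

set_option autoImplicit false

/-!
# How many pairs `A`, `A ∪ γ^d` does a family of density one half contain?

Q1 asks whether a family `S` of subsets of `[N]^d` of positive density contains one pair `A`,
`A ∪ γ^d`. Here we count. Let `freq s S` be the probability that `A` and `A ∪ γ^d` both belong to
`S`, for a random `γ ⊆ [N]` with `s` elements and a random `A ⊆ [N]^d` disjoint from `γ^d`. For a
random family of density `D` it is `D²`.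

(1) For every `ε > 0` there is `M` such that every family `S` of density `D`, `N` large, has
`freq s S ≥ D² - (1 - 2^(1-d)) D (1 - D) - ε` for some `s ≤ M`.
(2) There are families of density `2^(-r)` with `freq s S ≤ 2^(-r (d+1)) + ε` for all `s ≤ M`
simultaneously: `D^(d+1)` instead of `D²`.
(3) So for families of density one half the least possible frequency is exactly `2^(-(d+1))`.

For `d = 1` this is the frequency `1/4` of a random family. For `d ≥ 2` it is smaller: there is no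
Khintchine type theorem (in contrast to the IP polynomial recurrence theorem of Bergelson,
Furstenberg and McCutcheon for finitely many commuting transformations), and the bound (1), which
comes from positive definiteness, cannot be improved at density one half. The families in (2) are
`{A : Q_j(A) = 0 for all j < r}` with `Q_j` additive modulo 2 and `Q_j(γ^d) = 0` if and only if
`∑_{i ∈ γ} x_j(i) = 0` in `F_2^d`, for random vectors `x_j(i)`: there is a form of degree `d` in `d`
variables over `F_2` which is equal to one at all points except the origin.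
-/

namespace Pool.Agent.Results.MP_90b327_co.CountAtOneHalf

open Finset

/-- `cube d γ` is `γ^d`, the set of all `d`-tuples with entries in `γ`. -/
def cube {N : ℕ} (d : ℕ) (γ : Finset (Fin N)) : Finset (Fin d → Fin N) :=
  Fintype.piFinset (fun _ : Fin d => γ)

open Classical in
/-- All pairs `(γ, A)` of a set `γ ⊆ [N]` with `s` elements and a set `A ⊆ [N]^d` with
`A ∩ γ^d = ∅`. -/
noncomputable def pairs (N d s : ℕ) : Finset (Finset (Fin N) × Finset (Fin d → Fin N)) :=
  univ.filter (fun p => p.1.card = s ∧ Disjoint p.2 (cube d p.1))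

open Classical in
/-- The proportion of the pairs `(γ, A)` with `|γ| = s` and `A ∩ γ^d = ∅` for which both `A` and
`A ∪ γ^d` belong to the family `S`. -/
noncomputable def freq {N d : ℕ} (s : ℕ) (S : Finset (Finset (Fin d → Fin N))) : ℝ :=
  (((pairs N d s).filter (fun p => p.2 ∈ S ∧ p.2 ∪ cube d p.1 ∈ S)).card : ℝ)
    / (pairs N d s).card

/-- The density of the family `S` of subsets of `[N]^d`. -/
noncomputable def density {N d : ℕ} (S : Finset (Finset (Fin d → Fin N))) : ℝ :=
  (S.card : ℝ) / 2 ^ (N ^ d)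

theorem result (d : ℕ) (hd : 1 ≤ d) :
    -- (1) every family has many pairs
    (∀ ε : ℝ, 0 < ε → ∃ M N₀ : ℕ, ∀ N : ℕ, N₀ ≤ N → ∀ S : Finset (Finset (Fin d → Fin N)),
      ∃ s, 1 ≤ s ∧ s ≤ M ∧
        density S ^ 2 - (1 - 1 / 2 ^ (d - 1)) * (density S * (1 - density S)) - ε ≤ freq s S) ∧
    -- (2) families of density `2^(-r)` with few pairs
    (∀ (r M : ℕ) (ε : ℝ), 0 < ε → ∃ N₀ : ℕ, ∀ N : ℕ, N₀ ≤ N →
      ∃ S : Finset (Finset (Fin d → Fin N)), density S = (1 / 2) ^ r ∧
        ∀ s, 1 ≤ s → s ≤ M → freq s S ≤ (1 / 2) ^ (r * (d + 1)) + ε) ∧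
    -- (3) the exact answer at density one half
    (∀ ε : ℝ, 0 < ε → ∃ M N₀ : ℕ, ∀ N : ℕ, N₀ ≤ N →
      (∀ S : Finset (Finset (Fin d → Fin N)), density S = 1 / 2 →
        ∃ s, 1 ≤ s ∧ s ≤ M ∧ (1 / 2) ^ (d + 1) - ε ≤ freq s S) ∧
      (∃ S : Finset (Finset (Fin d → Fin N)), density S = 1 / 2 ∧
        ∀ s, 1 ≤ s → s ≤ M → freq s S ≤ (1 / 2) ^ (d + 1) + ε)) := by
  have h1 : ∀ ε : ℝ, 0 < ε → ∃ M N₀ : ℕ, ∀ N : ℕ, N₀ ≤ N →
      ∀ S : Finset (Finset (Fin d → Fin N)), ∃ s, 1 ≤ s ∧ s ≤ M ∧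
        density S ^ 2 - (1 - 1 / 2 ^ (d - 1)) * (density S * (1 - density S)) - ε
          ≤ freq s S := by
    intro ε hε
    obtain ⟨M, N₀, h⟩ := Pool.Agent.N630.PHC.upper hd ε hε
    refine ⟨M, N₀, fun N hN S => ?_⟩
    obtain ⟨s, hs1, hs2, hs⟩ := h N hN S
    refine ⟨s, hs1, hs2, le_trans (le_of_eq ?_) hs⟩
    unfold Pool.Agent.N630.PHC.gg Pool.Agent.N630.PHC.dens density
    ring
  have h2 : ∀ (r M : ℕ) (ε : ℝ), 0 < ε → ∃ N₀ : ℕ, ∀ N : ℕ, N₀ ≤ N →
      ∃ S : Finset (Finset (Fin d → Fin N)), density S = (1 / 2) ^ r ∧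
        ∀ s, 1 ≤ s → s ≤ M → freq s S ≤ (1 / 2) ^ (r * (d + 1)) + ε := by
    intro r M ε hε
    obtain ⟨N₀, h⟩ := Pool.Agent.N630.PHC.lower hd r M ε hε
    refine ⟨N₀, fun N hN => ?_⟩
    obtain ⟨S, hS, hs⟩ := h N hN
    refine ⟨S, ?_, hs⟩
    have h3 : (2 : ℝ) ^ r * S.card = 2 ^ (N ^ d) := by exact_mod_cast hS
    have h4 : (0 : ℝ) < S.card := by
      by_contra hneg
      have h5 : (S.card : ℝ) = 0 := le_antisymm (not_lt.1 hneg) (by positivity)
      rw [h5, mul_zero] at h3
      exact absurd h3.symm (by positivity)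
    unfold density
    rw [← h3, one_div, inv_pow, div_eq_iff (by positivity), ← mul_assoc,
      inv_mul_cancel₀ (by positivity), one_mul]
  refine ⟨h1, h2, fun ε hε => ?_⟩
  obtain ⟨M, N₁, h3⟩ := h1 ε hε
  obtain ⟨N₂, h4⟩ := h2 1 M ε hε
  refine ⟨M, max N₁ N₂, fun N hN => ⟨fun S hS => ?_, ?_⟩⟩
  · obtain ⟨s, hs1, hs2, hs⟩ := h3 N (le_trans (le_max_left _ _) hN) S
    refine ⟨s, hs1, hs2, le_trans (le_of_eq ?_) hs⟩
    rw [hS]
    obtain ⟨e, rfl⟩ : ∃ e, d = e + 1 := ⟨d - 1, by omega⟩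
    rw [Nat.add_sub_cancel, pow_succ, pow_succ, one_div_pow]
    ring
  · obtain ⟨S, hS, hs⟩ := h4 N (le_trans (le_max_right _ _) hN)
    refine ⟨S, by rw [hS, pow_one], fun s h5 h6 => ?_⟩
    have := hs s h5 h6
    rwa [one_mul] at this

end Pool.Agent.Results.MP_90b327_co.CountAtOneHalf
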