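import Pool.Agent.N389.PH.SharpQ

set_option autoImplicit false

/-!
# The restricted density polynomial Hales-Jewett conjecture for supports of rational functions

For functions with values in a vector space over the rational numbers the exact bound for the degree
is `N / 2`, in every dimension `d`.
-/

namespace Pool.Agent.Results.MP_90b327_co.RationalDegree

open Finset

/-- `cube d γ` is `γ^d`, the set of all `d`-tuples with entries in `γ`. -/
def cube {N : ℕ} (d : ℕ) (γ : Finset (Fin N)) : Finset (Fin d → Fin N) :=
  Fintype.piFinset (fun _ : Fin d => γ)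

/-- A family `S` of subsets of `[N]^d` is good if there are `A ∈ S` and a nonempty `γ ⊆ [N]` with
`A ∩ γ^d = ∅` and `A ∪ γ^d ∈ S`. -/
def Good {N d : ℕ} (S : Finset (Finset (Fin d → Fin N))) : Prop :=
  ∃ A ∈ S, ∃ γ : Finset (Fin N), γ.Nonempty ∧ Disjoint A (cube d γ) ∧ A ∪ cube d γ ∈ S

/-- The function of degree at most `D` with coefficients `c` and values in the abelian group `G`:
`A ↦ ∑ c T`, the sum over all subsets `T ⊆ A` with at most `D` elements. -/
def poly {E G : Type} [AddCommGroup G] (D : ℕ) (c : Finset E → G) (A : Finset E) : G :=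
  ∑ T ∈ A.powerset.filter (fun T => T.card ≤ D), c T

/-- **Theorem.** Let `d ≥ 1`.
(1) Let `F` be the support `{A : f A ≠ 0}` of a function `f` of degree at most `L` on the subsets of
`[N]^d` with values in a vector space over `ℚ` (for instance with real or complex values). If
`N > 2 L` and `F` is not empty, then `F` is good. More generally every family `S` with
`2 ^ (2 L + 1) |F ∖ S| < |F|` is good.
(2) The bound for `N` is sharp, for every `d`: for all `m` and `N = 2 m` the nonempty support of some
function of degree at most `m` with rational values is not good. -/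
theorem result (d : ℕ) (hd : 1 ≤ d) :
    (∀ (M : Type) [AddCommGroup M] [Module ℚ M] (L N : ℕ), 2 * L < N →
      ∀ (c : Finset (Fin d → Fin N) → M) (F S : Finset (Finset (Fin d → Fin N))),
        (∀ A, A ∈ F ↔ poly L c A ≠ 0) → 2 ^ (2 * L + 1) * (F \ S).card < F.card → Good S) ∧
    (∀ m : ℕ, ∃ (c : Finset (Fin d → Fin (2 * m)) → ℚ)
      (F : Finset (Finset (Fin d → Fin (2 * m)))),
      (∀ A, A ∈ F ↔ poly m c A ≠ 0) ∧ F.Nonempty ∧ ¬ Good F) := by
  refine ⟨?_, ?_⟩
  · intro M _ _ L N hN c F S hF hS
    exact Pool.Agent.N389.PH.Exact.rat hd L N hN c F S hF hS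
  · intro m
    exact Pool.Agent.N389.PH.Exact.sharp_rat hd m

end Pool.Agent.Results.MP_90b327_co.RationalDegree
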