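import Pool.Agent.N389.PH.Half
import Pool.Agent.TH635.PH.Thr
import Pool.Agent.TH635.BV.Thr2

set_option autoImplicit false

/-!
# The restricted density polynomial Hales-Jewett conjecture inside families with small boundary

If the conjecture holds for the densities above `θ`, then its relative form holds for the densities
above `θ` inside every family, however sparse, whose average sensitivity is at most `c N`; for
instance inside every family whose indicator function has real degree at most `c N / 2`.
-/

namespace Pool.Agent.Results.MP_90b327_co.SmallBoundaryFamilies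

open Finset

/-- `cube d γ` is `γ^d`, the set of all `d`-tuples with entries in `γ`. -/
def cube {N : ℕ} (d : ℕ) (γ : Finset (Fin N)) : Finset (Fin d → Fin N) :=
  Fintype.piFinset (fun _ : Fin d => γ)

/-- A family `S` of subsets of `[N]^d` is good if there are `A ∈ S` and a nonempty `γ ⊆ [N]` with
`A ∩ γ^d = ∅` and `A ∪ γ^d ∈ S`. -/
def Good {N d : ℕ} (S : Finset (Finset (Fin d → Fin N))) : Prop :=
  ∃ A ∈ S, ∃ γ : Finset (Fin N), γ.Nonempty ∧ Disjoint A (cube d γ) ∧ A ∪ cube d γ ∈ S

/-- The conjecture holds in dimension `d` for all densities above `θ`; `Q1` is the statement that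
`Above d 0` holds for all `d ≥ 1`. -/
def Above (d : ℕ) (θ : ℝ) : Prop :=
  ∀ δ : ℝ, θ < δ → ∃ N : ℕ, 1 ≤ N ∧ ∀ S : Finset (Finset (Fin d → Fin N)),
    δ * (2 : ℝ) ^ (N ^ d) < S.card → Good S

/-- The density above which the conjecture is known: `0` for `d = 1`, `0.3223` for `d = 2`, and
`(2^(d-1) - 1)/(2^d - 1)` for `d ≥ 3`. -/
noncomputable def threshold (d : ℕ) : ℝ :=
  if d = 2 then 3223 / 10000 else ((2 : ℝ) ^ (d - 1) - 1) / (2 ^ d - 1)

/-- The size of the boundary of `F`: the number of the pairs `(A, x)`, `A ∈ F`, `x ∈ [N]^d`, such that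
`A ∆ {x}` is not in `F`. -/
def boundary {N d : ℕ} (F : Finset (Finset (Fin d → Fin N))) : ℕ :=
  ((F ×ˢ (univ : Finset (Fin d → Fin N))).filter fun q => symmDiff q.1 {q.2} ∉ F).card

/-- The relative form with density `θ'`: inside every family `F`, however small, whose boundary is at
most `c N |F|` the relative density `θ'` is enough. -/
def Relative (d : ℕ) (θ' : ℝ) : Prop :=
  ∃ c : ℝ, 0 < c ∧ ∃ N₀ : ℕ, ∀ N : ℕ, N₀ ≤ N → ∀ F S : Finset (Finset (Fin d → Fin N)),
    (boundary F : ℝ) ≤ c * N * F.card → θ' * F.card < (S ∩ F).card → Good S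

/-- The function of degree at most `D` with coefficients `c`:
`A ↦ ∑ c T`, the sum over all subsets `T ⊆ A` with at most `D` elements. -/
def poly {E : Type} (D : ℕ) (c : Finset E → ℚ) (A : Finset E) : ℚ :=
  ∑ T ∈ A.powerset.filter (fun T => T.card ≤ D), c T

/-- **Theorem.** Let `d ≥ 1`.
(1) If the conjecture holds in dimension `d` for all densities above `θ`, then its relative form
inside families with small boundary holds for all densities above `θ`. So `Q1` implies its relative
form for all positive densities.
(2) The relative form holds for all densities above `threshold d`: above `0` for `d = 1`, above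
`0.3223` for `d = 2`, above `3/7` for `d = 3`.
(3) If the indicator function of `F` has degree at most `L`, as a function with rational values, then
the boundary of `F` has at most `2 L |F|` elements; so (1), (2) apply to `F` if `L ≤ c N / 2`.
(4) If the boundary of `F` has `β |F|` elements and `|S ∩ F| > (1/2 + β / (2 N)) |F|`, then `S` is
good.
(5) The range is sharp up to the constant `c`: for every `N` some nonempty family with boundary
`N |F|`, whose indicator function has degree at most `N`, is not good. -/
theorem result (d : ℕ) (hd : 1 ≤ d) :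
    (∀ θ θ' : ℝ, 0 ≤ θ → θ < θ' → Above d θ → Relative d θ') ∧
    (∀ θ' : ℝ, threshold d < θ' → Relative d θ') ∧
    (∀ (N L : ℕ) (c : Finset (Fin d → Fin N) → ℚ) (F : Finset (Finset (Fin d → Fin N))),
      (∀ A, poly L c A = if A ∈ F then 1 else 0) → boundary F ≤ 2 * L * F.card) ∧
    (∀ (N : ℕ) (F S : Finset (Finset (Fin d → Fin N))),
      N * F.card + boundary F < 2 * N * (S ∩ F).card → Good S) ∧
    (∀ N : ℕ, ∃ F : Finset (Finset (Fin d → Fin N)), F.Nonempty ∧ ¬ Good F ∧
      boundary F = N * F.card ∧
        ∃ c : Finset (Fin d → Fin N) → ℚ, ∀ A, poly N c A = if A ∈ F then 1 else 0) := by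
  have h1 : ∀ θ θ' : ℝ, 0 ≤ θ → θ < θ' → Above d θ → Relative d θ' := by
    intro θ θ' h0 h HA
    exact Pool.Agent.N389.PH.Exact.rel hd θ θ' h0 h HA
  refine ⟨h1, ?_, ?_, ?_, ?_⟩
  · intro θ' hθ'
    have h0 : 0 ≤ threshold d := by
      unfold threshold
      split_ifs
      · norm_num
      · have h1 : (1 : ℝ) ≤ 2 ^ (d - 1) := one_le_pow₀ (by norm_num)
        have h2 : (1 : ℝ) < 2 ^ d := one_lt_pow₀ (by norm_num) (by omega)
        exact div_nonneg (by linarith) (by linarith)
    refine h1 (threshold d) θ' h0 hθ' ?_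
    intro δ hδ
    have key : ∃ N₀ : ℕ, ∀ N : ℕ, N₀ ≤ N → ∀ S : Finset (Finset (Fin d → Fin N)),
        δ * (2 : ℝ) ^ (N ^ d) < S.card → Good S := by
      unfold threshold at hδ
      by_cases h2 : d = 2
      · subst h2
        rw [if_pos rfl] at hδ
        exact Pool.Agent.TH635.BV.thr2 δ hδ
      · rw [if_neg h2] at hδ
        exact Pool.Agent.TH635.PH.Thr.thr d hd δ hδ
    obtain ⟨N₀, hN₀⟩ := key
    exact ⟨N₀ + 1, by omega, hN₀ (N₀ + 1) (by omega)⟩
  · intro N L c F hF
    exact Pool.Agent.N389.PH.Exact.sens L c F hF univ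
  · intro N F S hS
    exact Pool.Agent.N389.PH.Exact.half hd F S hS
  · intro N
    exact Pool.Agent.N389.PH.Exact.diag hd N

end Pool.Agent.Results.MP_90b327_co.SmallBoundaryFamilies
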