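import Pool.Agent.N389.PH.Sharp

set_option autoImplicit false

/-!
# The restricted density polynomial Hales-Jewett conjecture for families of small degree

A family of subsets of `[N]^d` which is the support of a nonzero function of degree less than
`N / (d + 1)` is good, however few elements it has, and this bound is sharp.
-/

namespace Pool.Agent.Results.MP_90b327_co.SmallDegreeFamilies

open Finset

/-- `cube d γ` is `γ^d`, the set of all `d`-tuples with entries in `γ`. -/
def cube {N : ℕ} (d : ℕ) (γ : Finset (Fin N)) : Finset (Fin d → Fin N) :=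
  Fintype.piFinset (fun _ : Fin d => γ)

/-- A family `S` of subsets of `[N]^d` is good if there are `A ∈ S` and a nonempty `γ ⊆ [N]` with
`A ∩ γ^d = ∅` and `A ∪ γ^d ∈ S`. -/
def Good {N d : ℕ} (S : Finset (Finset (Fin d → Fin N))) : Prop :=
  ∃ A ∈ S, ∃ γ : Finset (Fin N), γ.Nonempty ∧ Disjoint A (cube d γ) ∧ A ∪ cube d γ ∈ S

/-- The function of degree at most `D` with coefficients `c` and values in the abelian group `G`:
`A ↦ ∑ c T`, the sum over all subsets `T ⊆ A` with at most `D` elements. -/
def poly {E G : Type} [AddCommGroup G] (D : ℕ) (c : Finset E → G) (A : Finset E) : G :=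
  ∑ T ∈ A.powerset.filter (fun T => T.card ≤ D), c T

/-- **Theorem.** Let `d ≥ 1`.
(1) Let `F` be the support `{A : f A ≠ 0}` of a function `f` of degree at most `L` on the subsets of
`[N]^d` with values in any abelian group. If `N > (d + 1) L` and `F` is not empty, then `F` is good.
More generally every family `S` with `|F ∖ S| < 2 ^ (-((d + 1) L + 1) ^ d) |F|` is good.
(2) The bound for `N` is sharp: for all `m` and `N = (d + 1) m` the support of some function of
degree at most `m` with values modulo 2, with exactly `2 ^ (N ^ d - m)` elements, is not good.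
(3) The same as in (1) holds for `F = {A : q A ∈ V}`, `V` any set, if `q` has degree at most `D` and
values in the abelian `p`-group `ℤ/p^k₁ × ... × ℤ/p^kᵣ`, with
`L = D ((p^k₁ - 1) + ... + (p^kᵣ - 1))`. -/
theorem result (d : ℕ) (hd : 1 ≤ d) :
    (∀ (M : Type) [AddCommGroup M] (L N : ℕ), (d + 1) * L < N →
      ∀ (c : Finset (Fin d → Fin N) → M) (F S : Finset (Finset (Fin d → Fin N))),
        (∀ A, A ∈ F ↔ poly L c A ≠ 0) →
          2 ^ (((d + 1) * L + 1) ^ d) * (F \ S).card < F.card → Good S) ∧
    (∀ m : ℕ, ∃ (c : Finset (Fin d → Fin ((d + 1) * m)) → ZMod 2)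
      (F : Finset (Finset (Fin d → Fin ((d + 1) * m)))),
      (∀ A, A ∈ F ↔ poly m c A ≠ 0) ∧ F.card * 2 ^ m = 2 ^ (((d + 1) * m) ^ d) ∧ ¬ Good F) ∧
    (∀ (p : ℕ) [Fact p.Prime] (r : ℕ) (k : Fin r → ℕ) (D L N : ℕ),
      L = D * ∑ i, (p ^ k i - 1) → (d + 1) * L < N →
      ∀ (c : Finset (Fin d → Fin N) → ∀ i : Fin r, ZMod (p ^ k i))
        (V : Set (∀ i : Fin r, ZMod (p ^ k i))) (F S : Finset (Finset (Fin d → Fin N))),
        (∀ A, A ∈ F ↔ poly D c A ∈ V) →
          2 ^ (((d + 1) * L + 1) ^ d) * (F \ S).card < F.card → Good S) := by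
  refine ⟨?_, ?_, ?_⟩
  · intro M _ L N hN c F S hF hS
    exact Pool.Agent.N389.PH.Exact.support hd L N hN c F S hF hS
  · intro m
    exact Pool.Agent.N389.PH.Exact.sharp_two hd m
  · intro p _ r k D L N hL hN c V F S hF hS
    exact Pool.Agent.N389.PH.Exact.pgroup hd p k D L N hL hN c V F S hF hS

end Pool.Agent.Results.MP_90b327_co.SmallDegreeFamilies
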